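import Pool.Agent.W223.HZ.Stms

/-! HZ-FIN: final assembly (helper382). -/

namespace Pool.Agent.W382.HZ.FIN

open Pool.Agent.W223.HZ

/-- cardinality of a finite union of sets of bounded cardinality -/
theorem bU {ι α : Type} (s : Finset ι) (A : ι → Set α) (B : ℝ) (hfin : ∀ j ∈ s, (A j).Finite)
    (h : ∀ j ∈ s, ((A j).ncard : ℝ) ≤ B) :
    (⋃ j ∈ s, A j).Finite ∧ ((⋃ j ∈ s, A j).ncard : ℝ) ≤ s.card * B := by
  classical
  induction s using Finset.induction_on with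
  | empty => simp
  | insert a s ha ih =>
    obtain ⟨h1, h2⟩ := ih (fun j hj => hfin j (Finset.mem_insert_of_mem hj))
      (fun j hj => h j (Finset.mem_insert_of_mem hj))
    rw [Finset.set_biUnion_insert]
    refine ⟨(hfin a (Finset.mem_insert_self _ _)).union h1, ?_⟩
    have h3 : ((A a ∪ ⋃ j ∈ s, A j).ncard : ℝ) ≤ (A a).ncard + (⋃ j ∈ s, A j).ncard := by
      exact_mod_cast Set.ncard_union_le _ _
    have h4 := h a (Finset.mem_insert_self _ _)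
    rw [Finset.card_insert_of_notMem ha]
    push_cast
    linarith

theorem small_sub (K : ℝ) : {k : ℤ | |(k : ℝ)| ≤ K} ⊆ Set.Icc (-⌊K⌋) ⌊K⌋ := by
  intro k hk
  have hk' : |(k : ℝ)| ≤ K := hk
  rw [abs_le] at hk'
  constructor
  · have : -k ≤ ⌊K⌋ := Int.le_floor.2 (by push_cast; linarith)
    linarith
  · exact Int.le_floor.2 hk'.2

theorem small_fin (K : ℝ) : {k : ℤ | |(k : ℝ)| ≤ K}.Finite :=
  (Set.finite_Icc _ _).subset (small_sub K)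

theorem small_card {K : ℝ} (hK : 1 ≤ K) {A : Set ℤ} (hA : A ⊆ {k : ℤ | |(k : ℝ)| ≤ K}) :
    (A.ncard : ℝ) ≤ 3 * K := by
  have h1 : A.ncard ≤ (Set.Icc (-⌊K⌋) ⌊K⌋).ncard :=
    Set.ncard_le_ncard (hA.trans (small_sub K)) (Set.finite_Icc _ _)
  have h2 : (Set.Icc (-⌊K⌋) ⌊K⌋).ncard = (⌊K⌋ + 1 - -⌊K⌋).toNat := by
    rw [← Finset.coe_Icc, Set.ncard_coe_finset, Int.card_Icc]
  have h3 : (0 : ℤ) ≤ ⌊K⌋ := Int.floor_nonneg.2 (by linarith)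
  have h4 : (((⌊K⌋ + 1 - -⌊K⌋).toNat : ℕ) : ℤ) = ⌊K⌋ + 1 - -⌊K⌋ := Int.toNat_of_nonneg (by linarith)
  have h5 : (((⌊K⌋ + 1 - -⌊K⌋).toNat : ℕ) : ℝ) = ⌊K⌋ + 1 - -⌊K⌋ := by exact_mod_cast h4
  have h6 : (A.ncard : ℝ) ≤ ((⌊K⌋ + 1 - -⌊K⌋).toNat : ℕ) := by
    rw [← h2]
    exact_mod_cast h1
  have h7 := Int.floor_le K
  rw [h5] at h6
  linarith

/-- the data of a point of large height -/
theorem mem (hR : StmtRED) {R : ℝ} (hb : (2 : ℝ) ^ 20 ≤ R) {k x y : ℤ} (hk : |(k : ℝ)| ≤ R ^ 4)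
    (hxy : y ^ 2 = x ^ 3 + k) (hx : |(x : ℝ)| ≤ Real.exp (R ^ ((1 : ℝ) / 2500)))
    (hx2 : R ^ ((392 : ℝ) / 100) < x) :
    (|(k : ℝ)| ≤ R ^ 4 ∧ ∃ x y u v : ℤ, y ^ 2 = x ^ 3 + k ∧ 0 ≤ y ∧
      R ^ (3 : ℕ) ≤ (x : ℝ) ∧ IsCoprime u v ∧ 1 ≤ v ∧ |(u : ℝ) - √(x : ℝ) * v| * √(x : ℝ) ≤ R ∧
      u ^ 3 - 3 * x * u * v ^ 2 + 2 * y * v ^ 3 = 0) ∨
    ∃ (i j : ℕ) (a b c d p q : ℤ), (i : ℝ) ≤ R ^ ((1 : ℝ) / 2500) ∧
      (j : ℝ) ≤ 3000 * R ^ ((1 : ℝ) / 1000) ∧ R ^ ((9 : ℝ) / 10) ≤ 2 ^ i ∧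
      Real.log (2 ^ i) ≤ 1 / 2 * R ^ ((1 : ℝ) / 2500) ∧
      Good 200 R (2 ^ j / 2) (2 ^ i) a b c d p q ∧
      (Chart2 200 R (2 ^ j / 2) (2 ^ i) a b c p q ∨ Chart1 200 R (2 ^ j / 2) (2 ^ i) b c d p q) ∧
      a ≠ 0 ∧ disc4 a b c d = 4 * k := by
  have hR20 : (20 : ℝ) ≤ R := le_trans (by norm_num) hb
  have hR1 : (1 : ℝ) ≤ R := by linarith
  have hR0 : (0 : ℝ) < R := by linarith
  have h3 : R ^ (3 : ℕ) ≤ (x : ℝ) := by
    have h1 : R ^ (3 : ℕ) ≤ R ^ ((392 : ℝ) / 100) := by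
      rw [← Real.rpow_natCast]
      exact Real.rpow_le_rpow_of_exponent_le hR1 (by norm_num)
    linarith
  have hx0 : (0 : ℝ) < x := lt_of_lt_of_le (by positivity) h3
  rcases hR R hR20 x |y| k (by rw [sq_abs]; exact hxy) (abs_nonneg y) hk h3 with
    ⟨u, v, h4, h5, h6, h7⟩ | ⟨i, j, a, b, c, d, p, q, h4, h5, h6, h7, h8, h9⟩
  · left
    exact ⟨hk, x, |y|, u, v, by rw [sq_abs]; exact hxy, abs_nonneg y, h3, h4, h5, h6, h7⟩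
  · right
    have hxle : (x : ℝ) ≤ Real.exp (R ^ ((1 : ℝ) / 2500)) := le_trans (le_abs_self _) hx
    have hlog : Real.log (2 ^ i) ≤ 1 / 2 * R ^ ((1 : ℝ) / 2500) := by
      have h10 : (2 : ℝ) ^ i ≤ √(x : ℝ) := by
        refine h4.trans (div_le_self (Real.sqrt_nonneg _) hR1)
      have h11 : √(x : ℝ) ≤ Real.exp (1 / 2 * R ^ ((1 : ℝ) / 2500)) := by
        rw [Real.sqrt_le_left (Real.exp_pos _).le, ← Real.exp_nat_mul]
        refine hxle.trans (le_of_eq ?_)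
        congr 1
        push_cast
        ring
      rw [Real.log_le_iff_le_exp (by positivity)]
      exact h10.trans h11
    refine ⟨i, j, a, b, c, d, p, q, ?_, ?_, ?_, hlog, h7, h8, h6, h9⟩
    · rw [Real.log_pow] at hlog
      have h10 := Real.log_two_gt_d9
      have h11 : (0 : ℝ) ≤ i := Nat.cast_nonneg i
      nlinarith
    · have ha := h7.ha
      have ha1 : (1 : ℝ) ≤ |(a : ℝ)| := by
        have : (1 : ℤ) ≤ |a| := Int.one_le_abs h6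
        exact_mod_cast this
      have h10 : ((2 : ℝ) ^ j / 2) ^ 3 ≤ 200 * R := by
        refine le_trans ?_ ha
        have : (0 : ℝ) ≤ ((2 : ℝ) ^ j / 2) ^ 3 := by positivity
        nlinarith
      have h11 : (2 : ℝ) ^ j ≤ 1600 * R := by
        have h12 : (1 : ℝ) ≤ 2 ^ j := one_le_pow₀ (by norm_num)
        have h13 : (2 : ℝ) ^ j ≤ ((2 : ℝ) ^ j) ^ 3 := le_self_pow₀ h12 (by norm_num)
        have h14 : ((2 : ℝ) ^ j / 2) ^ 3 = ((2 : ℝ) ^ j) ^ 3 / 8 := by ring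
        rw [h14] at h10
        linarith
      have h12 : Real.log ((2 : ℝ) ^ j) ≤ Real.log (1600 * R) :=
        Real.log_le_log (by positivity) h11
      rw [Real.log_pow, Real.log_mul (by norm_num) hR0.ne'] at h12
      have h13 := Real.log_two_gt_d9
      have h14 : Real.log 1600 ≤ 8 := by
        rw [Real.log_le_iff_le_exp (by norm_num)]
        have h15 : (2.7182818283 : ℝ) < Real.exp 1 := Real.exp_one_gt_d9
        have h16 : Real.exp 8 = Real.exp 1 ^ 8 := by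
          rw [← Real.exp_nat_mul]
          norm_num
        rw [h16]
        have h17 : (2.7 : ℝ) ^ 8 ≤ Real.exp 1 ^ 8 := by
          gcongr
          linarith
        refine le_trans ?_ h17
        norm_num
      have h15 : Real.log R ≤ R ^ ((1 : ℝ) / 1000) / (1 / 1000) :=
        Real.log_le_rpow_div hR0.le (by norm_num)
      have h16 : (1 : ℝ) ≤ R ^ ((1 : ℝ) / 1000) := Real.one_le_rpow hR1 (by norm_num)
      have h17 : (0 : ℝ) ≤ j := Nat.cast_nonneg j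
      have h18 : (1 / 2 : ℝ) * j ≤ j * Real.log 2 := by nlinarith
      have h19 : R ^ ((1 : ℝ) / 1000) / (1 / 1000) = 1000 * R ^ ((1 : ℝ) / 1000) := by ring
      rw [h19] at h15
      nlinarith
    · have h10 : R ^ ((196 : ℝ) / 100) ≤ √(x : ℝ) := by
        apply Real.le_sqrt_of_sq_le
        rw [← Real.rpow_natCast, ← Real.rpow_mul hR0.le]
        refine le_trans (le_of_eq ?_) hx2.le
        norm_num
      have h11 : R ^ ((96 : ℝ) / 100) ≤ √(x : ℝ) / R := by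
        rw [le_div_iff₀ hR0]
        refine le_trans (le_of_eq ?_) h10
        nth_rewrite 2 [← Real.rpow_one R]
        rw [← Real.rpow_add hR0]
        norm_num
      have h12 : (2 : ℝ) ≤ R ^ ((6 : ℝ) / 100) := by
        have h13 : ((2 : ℝ) ^ 20) ^ ((6 : ℝ) / 100) ≤ R ^ ((6 : ℝ) / 100) :=
          Real.rpow_le_rpow (by positivity) hb (by norm_num)
        refine le_trans ?_ h13
        rw [← Real.rpow_natCast, ← Real.rpow_mul (by norm_num)]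
        calc (2 : ℝ) = 2 ^ (1 : ℝ) := (Real.rpow_one 2).symm
          _ ≤ 2 ^ (((20 : ℕ) : ℝ) * (6 / 100)) :=
            Real.rpow_le_rpow_of_exponent_le (by norm_num) (by norm_num)
      have h13 : R ^ ((96 : ℝ) / 100) = R ^ ((9 : ℝ) / 10) * R ^ ((6 : ℝ) / 100) := by
        rw [← Real.rpow_add hR0]
        norm_num
      have h14 : (0 : ℝ) < R ^ ((9 : ℝ) / 10) := by positivity
      have h15 : (2 : ℝ) ^ (i + 1) = 2 * 2 ^ i := by ring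
      rw [h15] at h5
      rw [h13] at h11
      nlinarith

/-- the conditional set of `StmtCNC` -/
def AN (R : ℝ) (ij : ℕ × ℕ) : Set ℤ := {k : ℤ | ((2 : ℝ) ^ ij.2 / 2 ≤ R ^ ((26 : ℝ) / 100) ∧
  R ^ ((9 : ℝ) / 10) ≤ (2 : ℝ) ^ ij.1 ∧ Real.log ((2 : ℝ) ^ ij.1) ≤ 1 / 2 * R ^ ((1 : ℝ) / 2500)) ∧
  ∃ a b c d p q : ℤ, Good 200 R (2 ^ ij.2 / 2) (2 ^ ij.1) a b c d p q ∧
    (Chart2 200 R (2 ^ ij.2 / 2) (2 ^ ij.1) a b c p q ∨
      Chart1 200 R (2 ^ ij.2 / 2) (2 ^ ij.1) b c d p q) ∧ a ≠ 0 ∧ (∀ e : ℤ, e ^ 3 ≠ a) ∧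
    disc4 a b c d = 4 * k}

/-- the conditional set of `StmtCCU` -/
def AC (R : ℝ) (j : ℕ) : Set ℤ := {k : ℤ | ((2 : ℝ) ^ j / 2 ≤ R ^ ((26 : ℝ) / 100)) ∧
  ∃ a b c d e : ℤ, |(a : ℝ)| * (2 ^ j / 2) ^ 3 ≤ 200 * R ∧ |(b : ℝ)| * (2 ^ j / 2) ≤ 200 * R ∧
    |(c : ℝ)| ≤ 200 * (R * (2 ^ j / 2)) ∧ |(d : ℝ)| ≤ 200 * (R * (2 ^ j / 2) ^ 3) ∧ e ^ 3 = a ∧
    a ≠ 0 ∧ disc4 a b c d = 4 * k}

/-- the conditional set of `StmtCLT` -/
def AL (R : ℝ) (j : ℕ) : Set ℤ := {k : ℤ | (R ^ ((26 : ℝ) / 100) ≤ (2 : ℝ) ^ j / 2) ∧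
  ∃ a b c d : ℤ, |(a : ℝ)| * (2 ^ j / 2) ^ 3 ≤ 200 * R ∧ |(b : ℝ)| * (2 ^ j / 2) ≤ 200 * R ∧
    |(c : ℝ)| ≤ 200 * (R * (2 ^ j / 2)) ∧ |(d : ℝ)| ≤ 200 * (R * (2 ^ j / 2) ^ 3) ∧ a ≠ 0 ∧
    disc4 a b c d = 4 * k}

theorem half (j : ℕ) : (1 / 2 : ℝ) ≤ 2 ^ j / 2 := by
  have : (1 : ℝ) ≤ 2 ^ j := one_le_pow₀ (by norm_num)
  linarith

theorem AN_card {C R₀ R : ℝ} (hC : 1 ≤ C) (hR0 : 0 ≤ R) (hR : R₀ ≤ R)
    (hN : ∀ R T V : ℝ, R₀ ≤ R → 1 / 2 ≤ T →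
      T ≤ R ^ ((26 : ℝ) / 100) → R ^ ((9 : ℝ) / 10) ≤ V →
      Real.log V ≤ 1 / 2 * R ^ ((1 : ℝ) / 2500) →
      {k : ℤ | ∃ a b c d p q : ℤ, Good 200 R T V a b c d p q ∧
        (Chart2 200 R T V a b c p q ∨ Chart1 200 R T V b c d p q) ∧ a ≠ 0 ∧ (∀ e : ℤ, e ^ 3 ≠ a) ∧
        disc4 a b c d = 4 * k}.Finite ∧
      ({k : ℤ | ∃ a b c d p q : ℤ, Good 200 R T V a b c d p q ∧
        (Chart2 200 R T V a b c p q ∨ Chart1 200 R T V b c d p q) ∧ a ≠ 0 ∧ (∀ e : ℤ, e ^ 3 ≠ a) ∧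
        disc4 a b c d = 4 * k}.ncard : ℝ) ≤ C * R ^ (4 - (1 : ℝ) / 22 + 1 / 300))
    (ij : ℕ × ℕ) : (AN R ij).Finite ∧
      ((AN R ij).ncard : ℝ) ≤ C * R ^ (4 - (1 : ℝ) / 22 + 1 / 300) := by
  by_cases h : (2 : ℝ) ^ ij.2 / 2 ≤ R ^ ((26 : ℝ) / 100) ∧ R ^ ((9 : ℝ) / 10) ≤ (2 : ℝ) ^ ij.1 ∧
      Real.log ((2 : ℝ) ^ ij.1) ≤ 1 / 2 * R ^ ((1 : ℝ) / 2500)
  · obtain ⟨h1, h2⟩ := hN R (2 ^ ij.2 / 2) (2 ^ ij.1) hR (half _) h.1 h.2.1 h.2.2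
    have hs : AN R ij ⊆ _ := fun k hk => hk.2
    refine ⟨h1.subset hs, le_trans ?_ h2⟩
    exact_mod_cast Set.ncard_le_ncard hs h1
  · have he : AN R ij = ∅ := Set.eq_empty_of_forall_notMem fun k hk => h hk.1
    rw [he]
    refine ⟨Set.finite_empty, ?_⟩
    rw [Set.ncard_empty]
    have : (0 : ℝ) ≤ R ^ (4 - (1 : ℝ) / 22 + 1 / 300) := Real.rpow_nonneg hR0 _
    push_cast
    nlinarith

theorem large (hR : StmtRED) (hS : StmtSMX) (h0 : StmtCA0) (hN : StmtCNC) (hC : StmtCCU)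
    (hL : StmtCLT) : ∃ M R₁ : ℝ, 0 ≤ M ∧ 1 ≤ R₁ ∧ ∀ R : ℝ, R₁ ≤ R →
    ({k : ℤ | k ≠ 0 ∧ |(k : ℝ)| ≤ R ^ 4 ∧ ∃ x y : ℤ, y ^ 2 = x ^ 3 + k ∧
      |(x : ℝ)| ≤ Real.exp (R ^ ((1 : ℝ) / 2500))}.ncard : ℝ) ≤ M * R ^ ((396 : ℝ) / 100) := by
  classical
  obtain ⟨C1, hC1, hS⟩ := hS
  obtain ⟨C4, R0, hC4, hR0, hN⟩ := hN
  obtain ⟨C2, hC2, hC⟩ := hC
  obtain ⟨C3, hC3, hL⟩ := hL
  refine ⟨C1 + 100 + 3001 * C3 + 3001 * C2 + 6002 * C4, max R0 (2 ^ 20), by positivity,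
    le_trans hR0 (le_max_left _ _), fun R hRR => ?_⟩
  have hb : (2 : ℝ) ^ 20 ≤ R := le_trans (le_max_right _ _) hRR
  have hRR0 : R0 ≤ R := le_trans (le_max_left _ _) hRR
  have hR20 : (20 : ℝ) ≤ R := le_trans (by norm_num) hb
  have hR1 : (1 : ℝ) ≤ R := by linarith
  have hRpos : (0 : ℝ) < R := by linarith
  have hpow : ∀ s : ℝ, 0 < R ^ s := fun s => Real.rpow_pos_of_pos hRpos s
  set I := ⌊R ^ ((1 : ℝ) / 2500)⌋₊ with hI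
  set J := ⌊3000 * R ^ ((1 : ℝ) / 1000)⌋₊ with hJ
  have hI1 : ((I + 1 : ℕ) : ℝ) ≤ 2 * R ^ ((1 : ℝ) / 2500) := by
    have h1 := Nat.floor_le (hpow ((1 : ℝ) / 2500)).le
    have h2 : (1 : ℝ) ≤ R ^ ((1 : ℝ) / 2500) := Real.one_le_rpow hR1 (by norm_num)
    push_cast
    rw [← hI] at h1
    linarith
  have hJ1 : ((J + 1 : ℕ) : ℝ) ≤ 3001 * R ^ ((1 : ℝ) / 1000) := by
    have h1 := Nat.floor_le (show (0 : ℝ) ≤ 3000 * R ^ ((1 : ℝ) / 1000) by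
      have := hpow ((1 : ℝ) / 1000)
      positivity)
    have h2 : (1 : ℝ) ≤ R ^ ((1 : ℝ) / 1000) := Real.one_le_rpow hR1 (by norm_num)
    push_cast
    rw [← hJ] at h1
    linarith
  -- the sets
  have hS' := hS (R ^ 4) (one_le_pow₀ hR1)
  obtain ⟨hZf, hZ⟩ := h0 R hR20
  set AS : Set ℤ := {k : ℤ | |(k : ℝ)| ≤ R ^ 4 ∧ ∃ x y : ℤ, y ^ 2 = x ^ 3 + k ∧
    (x : ℝ) ≤ (R ^ 4) ^ ((98 : ℝ) / 100)} with hAS
  set AZ : Set ℤ := {k : ℤ | |(k : ℝ)| ≤ R ^ 4 ∧ ∃ x y u v : ℤ, y ^ 2 = x ^ 3 + k ∧ 0 ≤ y ∧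
    R ^ (3 : ℕ) ≤ (x : ℝ) ∧ IsCoprime u v ∧ 1 ≤ v ∧ |(u : ℝ) - √(x : ℝ) * v| * √(x : ℝ) ≤ R ∧
    u ^ 3 - 3 * x * u * v ^ 2 + 2 * y * v ^ 3 = 0} with hAZ
  obtain ⟨hLf, hLc⟩ := bU (Finset.range (J + 1)) (AL R) (C3 * R ^ ((392 : ℝ) / 100))
    (fun j _ => by
      by_cases h : R ^ ((26 : ℝ) / 100) ≤ (2 : ℝ) ^ j / 2
      · exact (hL R (2 ^ j / 2) hR1 h).1.subset fun k hk => hk.2
      · exact Set.finite_empty.subset fun k hk => absurd hk.1 h)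
    (fun j _ => by
      by_cases h : R ^ ((26 : ℝ) / 100) ≤ (2 : ℝ) ^ j / 2
      · obtain ⟨h1, h2⟩ := hL R (2 ^ j / 2) hR1 h
        have hs : AL R j ⊆ _ := fun k hk => hk.2
        refine le_trans ?_ h2
        exact_mod_cast Set.ncard_le_ncard hs h1
      · have he : AL R j = ∅ := Set.eq_empty_of_forall_notMem fun k hk => h hk.1
        rw [he, Set.ncard_empty]
        have := hpow ((392 : ℝ) / 100)
        push_cast
        positivity)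
  obtain ⟨hCf, hCc⟩ := bU (Finset.range (J + 1)) (AC R) (C2 * R ^ ((39 : ℝ) / 10))
    (fun j _ => by
      by_cases h : (2 : ℝ) ^ j / 2 ≤ R ^ ((26 : ℝ) / 100)
      · exact (hC R (2 ^ j / 2) hR1 (half j) h).1.subset fun k hk => hk.2
      · exact Set.finite_empty.subset fun k hk => absurd hk.1 h)
    (fun j _ => by
      by_cases h : (2 : ℝ) ^ j / 2 ≤ R ^ ((26 : ℝ) / 100)
      · obtain ⟨h1, h2⟩ := hC R (2 ^ j / 2) hR1 (half j) h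
        have hs : AC R j ⊆ _ := fun k hk => hk.2
        refine le_trans ?_ h2
        exact_mod_cast Set.ncard_le_ncard hs h1
      · have he : AC R j = ∅ := Set.eq_empty_of_forall_notMem fun k hk => h hk.1
        rw [he, Set.ncard_empty]
        have := hpow ((39 : ℝ) / 10)
        push_cast
        positivity)
  obtain ⟨hNf, hNc⟩ := bU (Finset.range (I + 1) ×ˢ Finset.range (J + 1)) (AN R)
    (C4 * R ^ (4 - (1 : ℝ) / 22 + 1 / 300))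
    (fun ij _ => (AN_card hC4 hRpos.le hRR0 hN ij).1)
    (fun ij _ => (AN_card hC4 hRpos.le hRR0 hN ij).2)
  rw [Finset.card_range] at hLc hCc
  rw [Finset.card_product, Finset.card_range, Finset.card_range] at hNc
  set UL := ⋃ j ∈ Finset.range (J + 1), AL R j with hUL
  set UC := ⋃ j ∈ Finset.range (J + 1), AC R j with hUC
  set UN := ⋃ ij ∈ Finset.range (I + 1) ×ˢ Finset.range (J + 1), AN R ij with hUN
  have hSf : AS.Finite := (small_fin (R ^ 4)).subset fun k hk => hk.1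
  have hfin : (AS ∪ (AZ ∪ (UL ∪ (UC ∪ UN)))).Finite :=
    hSf.union (hZf.union (hLf.union (hCf.union hNf)))
  have hsub : {k : ℤ | k ≠ 0 ∧ |(k : ℝ)| ≤ R ^ 4 ∧ ∃ x y : ℤ, y ^ 2 = x ^ 3 + k ∧
      |(x : ℝ)| ≤ Real.exp (R ^ ((1 : ℝ) / 2500))} ⊆ AS ∪ (AZ ∪ (UL ∪ (UC ∪ UN))) := by
    rintro k ⟨-, hk, x, y, hxy, hx⟩
    have he98 : (R ^ 4) ^ ((98 : ℝ) / 100) = R ^ ((392 : ℝ) / 100) := by
      rw [← Real.rpow_natCast, ← Real.rpow_mul hRpos.le]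
      norm_num
    by_cases hx2 : (x : ℝ) ≤ R ^ ((392 : ℝ) / 100)
    · exact Or.inl ⟨hk, x, y, hxy, by rw [he98]; exact hx2⟩
    · right
      rcases mem hR hb hk hxy hx (not_le.1 hx2) with h1 |
        ⟨i, j, a, b, c, d, p, q, hi, hj, h3, h4, h5, h6, h7, h8⟩
      · exact Or.inl h1
      · right
        have hi' : i ∈ Finset.range (I + 1) :=
          Finset.mem_range.2 (Nat.lt_succ_of_le (Nat.le_floor hi))
        have hj' : j ∈ Finset.range (J + 1) :=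
          Finset.mem_range.2 (Nat.lt_succ_of_le (Nat.le_floor hj))
        rcases le_total ((2 : ℝ) ^ j / 2) (R ^ ((26 : ℝ) / 100)) with hT | hT
        · right
          by_cases hcube : ∃ e : ℤ, e ^ 3 = a
          · obtain ⟨e, he⟩ := hcube
            left
            rw [hUC]
            refine Set.mem_biUnion hj' ?_
            exact ⟨hT, a, b, c, d, e, h5.ha, h5.hb, h5.hc, h5.hd, he, h7, h8⟩
          · right
            rw [hUN]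
            refine Set.mem_biUnion (Finset.mem_product.2 ⟨hi', hj'⟩ : (i, j) ∈ _) ?_
            exact ⟨⟨hT, h3, h4⟩, a, b, c, d, p, q, h5, h6, h7, fun e he => hcube ⟨e, he⟩, h8⟩
        · left
          rw [hUL]
          refine Set.mem_biUnion hj' ?_
          exact ⟨hT, a, b, c, d, h5.ha, h5.hb, h5.hc, h5.hd, h7, h8⟩
  have hcard : ({k : ℤ | k ≠ 0 ∧ |(k : ℝ)| ≤ R ^ 4 ∧ ∃ x y : ℤ, y ^ 2 = x ^ 3 + k ∧
      |(x : ℝ)| ≤ Real.exp (R ^ ((1 : ℝ) / 2500))}.ncard : ℝ) ≤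
      AS.ncard + (AZ.ncard + (UL.ncard + (UC.ncard + UN.ncard))) := by
    have h1 := Set.ncard_le_ncard hsub hfin
    have h2 := Set.ncard_union_le AS (AZ ∪ (UL ∪ (UC ∪ UN)))
    have h3 := Set.ncard_union_le AZ (UL ∪ (UC ∪ UN))
    have h4 := Set.ncard_union_le UL (UC ∪ UN)
    have h5 := Set.ncard_union_le UC UN
    have h6 : {k : ℤ | k ≠ 0 ∧ |(k : ℝ)| ≤ R ^ 4 ∧ ∃ x y : ℤ, y ^ 2 = x ^ 3 + k ∧
      |(x : ℝ)| ≤ Real.exp (R ^ ((1 : ℝ) / 2500))}.ncard ≤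
        AS.ncard + (AZ.ncard + (UL.ncard + (UC.ncard + UN.ncard))) := by omega
    have h7 : (({k : ℤ | k ≠ 0 ∧ |(k : ℝ)| ≤ R ^ 4 ∧ ∃ x y : ℤ, y ^ 2 = x ^ 3 + k ∧
      |(x : ℝ)| ≤ Real.exp (R ^ ((1 : ℝ) / 2500))}.ncard : ℕ) : ℝ) ≤
        ((AS.ncard + (AZ.ncard + (UL.ncard + (UC.ncard + UN.ncard))) : ℕ) : ℝ) := Nat.cast_le.2 h6
    refine h7.trans (le_of_eq ?_)
    simp only [Nat.cast_add]
  refine hcard.trans ?_
  -- bounds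
  have hmono : ∀ s : ℝ, s ≤ (396 : ℝ) / 100 → R ^ s ≤ R ^ ((396 : ℝ) / 100) := fun s hs =>
    Real.rpow_le_rpow_of_exponent_le hR1 hs
  have b1 : (AS.ncard : ℝ) ≤ C1 * R ^ ((396 : ℝ) / 100) := by
    refine hS'.trans (le_of_eq ?_)
    congr 1
    rw [← Real.rpow_natCast, ← Real.rpow_mul hRpos.le]
    norm_num
  have b2 : (AZ.ncard : ℝ) ≤ 100 * R ^ ((396 : ℝ) / 100) := by
    refine hZ.trans ?_
    have h1 : R ^ 3 ≤ R ^ ((396 : ℝ) / 100) := by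
      rw [← Real.rpow_natCast]
      exact hmono _ (by norm_num)
    linarith
  have b3 : (UL.ncard : ℝ) ≤ 3001 * C3 * R ^ ((396 : ℝ) / 100) := by
    refine hLc.trans ?_
    have h1 := hpow ((392 : ℝ) / 100)
    have h2 : R ^ ((1 : ℝ) / 1000) * R ^ ((392 : ℝ) / 100) ≤ R ^ ((396 : ℝ) / 100) := by
      rw [← Real.rpow_add hRpos]
      exact hmono _ (by norm_num)
    calc ((J + 1 : ℕ) : ℝ) * (C3 * R ^ ((392 : ℝ) / 100))
        ≤ (3001 * R ^ ((1 : ℝ) / 1000)) * (C3 * R ^ ((392 : ℝ) / 100)) :=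
          mul_le_mul_of_nonneg_right hJ1 (by positivity)
      _ = 3001 * C3 * (R ^ ((1 : ℝ) / 1000) * R ^ ((392 : ℝ) / 100)) := by ring
      _ ≤ 3001 * C3 * R ^ ((396 : ℝ) / 100) := mul_le_mul_of_nonneg_left h2 (by positivity)
  have b4 : (UC.ncard : ℝ) ≤ 3001 * C2 * R ^ ((396 : ℝ) / 100) := by
    refine hCc.trans ?_
    have h1 := hpow ((39 : ℝ) / 10)
    have h2 : R ^ ((1 : ℝ) / 1000) * R ^ ((39 : ℝ) / 10) ≤ R ^ ((396 : ℝ) / 100) := by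
      rw [← Real.rpow_add hRpos]
      exact hmono _ (by norm_num)
    calc ((J + 1 : ℕ) : ℝ) * (C2 * R ^ ((39 : ℝ) / 10))
        ≤ (3001 * R ^ ((1 : ℝ) / 1000)) * (C2 * R ^ ((39 : ℝ) / 10)) :=
          mul_le_mul_of_nonneg_right hJ1 (by positivity)
      _ = 3001 * C2 * (R ^ ((1 : ℝ) / 1000) * R ^ ((39 : ℝ) / 10)) := by ring
      _ ≤ 3001 * C2 * R ^ ((396 : ℝ) / 100) := mul_le_mul_of_nonneg_left h2 (by positivity)
  have b5 : (UN.ncard : ℝ) ≤ 6002 * C4 * R ^ ((396 : ℝ) / 100) := by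
    refine hNc.trans ?_
    have h1 := hpow (4 - (1 : ℝ) / 22 + 1 / 300)
    have h3 := hpow ((1 : ℝ) / 2500)
    have h4 := hpow ((1 : ℝ) / 1000)
    have h2 : R ^ ((1 : ℝ) / 2500) * R ^ ((1 : ℝ) / 1000) * R ^ (4 - (1 : ℝ) / 22 + 1 / 300) ≤
        R ^ ((396 : ℝ) / 100) := by
      rw [← Real.rpow_add hRpos, ← Real.rpow_add hRpos]
      exact hmono _ (by norm_num)
    have h5 : (((I + 1) * (J + 1) : ℕ) : ℝ) ≤
        (2 * R ^ ((1 : ℝ) / 2500)) * (3001 * R ^ ((1 : ℝ) / 1000)) := by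
      rw [Nat.cast_mul]
      exact mul_le_mul hI1 hJ1 (by positivity) (by positivity)
    calc (((I + 1) * (J + 1) : ℕ) : ℝ) * (C4 * R ^ (4 - (1 : ℝ) / 22 + 1 / 300))
        ≤ ((2 * R ^ ((1 : ℝ) / 2500)) * (3001 * R ^ ((1 : ℝ) / 1000))) *
            (C4 * R ^ (4 - (1 : ℝ) / 22 + 1 / 300)) :=
          mul_le_mul_of_nonneg_right h5 (by positivity)
      _ = 6002 * C4 * (R ^ ((1 : ℝ) / 2500) * R ^ ((1 : ℝ) / 1000) *
            R ^ (4 - (1 : ℝ) / 22 + 1 / 300)) := by ring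
      _ ≤ 6002 * C4 * R ^ ((396 : ℝ) / 100) := mul_le_mul_of_nonneg_left h2 (by positivity)
  linarith

theorem t (hR : StmtRED) (hS : StmtSMX) (h0 : StmtCA0) (hN : StmtCNC) (hC : StmtCCU)
    (hL : StmtCLT) : StmtFIN := by
  obtain ⟨M, R₁, hM, hR₁, h⟩ := large hR hS h0 hN hC hL
  refine ⟨M + 3 * R₁ ^ 4, fun K hK => ?_⟩
  have hK0 : (0 : ℝ) < K := by linarith
  have hK1 : (1 : ℝ) ≤ K ^ ((99 : ℝ) / 100) := Real.one_le_rpow hK (by norm_num)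
  have hR4 : (1 : ℝ) ≤ R₁ ^ 4 := one_le_pow₀ hR₁
  by_cases hc : K < R₁ ^ 4
  · have h1 := small_card hK (A := {k : ℤ | k ≠ 0 ∧ |(k : ℝ)| ≤ K ∧ ∃ x y : ℤ,
      y ^ 2 = x ^ 3 + k ∧ |(x : ℝ)| ≤ Real.exp (K ^ ((1 : ℝ) / 10000))}) (fun k hk => hk.2.1)
    refine h1.trans ?_
    nlinarith
  · push Not at hc
    have hR : R₁ ≤ K ^ ((1 : ℝ) / 4) := by
      have h2 : (R₁ ^ 4) ^ ((1 : ℝ) / 4) ≤ K ^ ((1 : ℝ) / 4) :=
        Real.rpow_le_rpow (by positivity) hc (by norm_num)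
      refine le_trans (le_of_eq ?_) h2
      rw [← Real.rpow_natCast, ← Real.rpow_mul (by linarith)]
      norm_num
    have h1 := h _ hR
    have e1 : (K ^ ((1 : ℝ) / 4)) ^ 4 = K := by
      rw [← Real.rpow_natCast, ← Real.rpow_mul hK0.le]
      norm_num
    have e2 : (K ^ ((1 : ℝ) / 4)) ^ ((1 : ℝ) / 2500) = K ^ ((1 : ℝ) / 10000) := by
      rw [← Real.rpow_mul hK0.le]
      norm_num
    have e3 : (K ^ ((1 : ℝ) / 4)) ^ ((396 : ℝ) / 100) = K ^ ((99 : ℝ) / 100) := by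
      rw [← Real.rpow_mul hK0.le]
      norm_num
    rw [e1, e2, e3] at h1
    refine h1.trans ?_
    nlinarith

end Pool.Agent.W382.HZ.FIN
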